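import Mathlib
import Pool.Agent.K7.H37.N2.End

set_option autoImplicit false

/-!
# The case `n = 2` of Q1 of MP_abb0cc_co

The positive integers congruent to `1`, `2` or `4` modulo `7` form a sequence which is
`3`-subsum-free and `(2,2)`-Ramsey.
-/

namespace Pool.Agent.Results.MP_abb0cc_co.PairsModSeven

open Pool.Agent.K7.H37.N2

/-- the increasing enumeration of the positive integers congruent to `1, 2, 4` modulo `7` -/
def X (n : ℕ) : ℤ := 7 * (n / 3 : ℕ) + (if n % 3 = 0 then 1 else if n % 3 = 1 then 2 else 4)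

theorem X_mono : StrictMono X := by
  refine strictMono_nat_of_lt_succ fun n => ?_
  unfold X
  split_ifs <;> omega

theorem X_range : Set.range X = {m : ℤ | 0 < m ∧ (m % 7 = 1 ∨ m % 7 = 2 ∨ m % 7 = 4)} := by
  ext m
  constructor
  · rintro ⟨n, rfl⟩
    show 0 < X n ∧ _
    unfold X
    split_ifs <;> omega
  · rintro ⟨h0, h⟩
    rcases h with h | h | h
    · refine ⟨3 * (m / 7).toNat, ?_⟩
      unfold X
      rw [if_pos (by omega)]
      omega
    · refine ⟨3 * (m / 7).toNat + 1, ?_⟩
      unfold X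
      rw [if_neg (by omega), if_pos (by omega)]
      omega
    · refine ⟨3 * (m / 7).toNat + 2, ?_⟩
      unfold X
      rw [if_neg (by omega), if_neg (by omega)]
      omega

theorem mem_range {m : ℤ} : m ∈ Set.range X ↔ 0 < m ∧ (m % 7 = 1 ∨ m % 7 = 2 ∨ m % 7 = 4) := by
  rw [X_range]
  rfl

theorem X_subsum (s : Finset ℕ) (hs : s.card = 3) :
    ∃ t ⊆ s, t.Nonempty ∧ (∑ i ∈ t, X i) ∉ Set.range X := by
  obtain ⟨i, j, k, hij, hik, hjk, rfl⟩ := Finset.card_eq_three.1 hs
  have hi := (mem_range.1 ⟨i, rfl⟩).2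
  have hj := (mem_range.1 ⟨j, rfl⟩).2
  have hk := (mem_range.1 ⟨k, rfl⟩).2
  by_cases h1 : X i % 7 = X j % 7
  · by_cases h2 : X i % 7 = X k % 7
    · refine ⟨{i, j, k}, subset_rfl, ⟨i, by simp⟩, ?_⟩
      rw [mem_range, Finset.sum_insert (by simp [hij, hik]), Finset.sum_pair hjk]
      omega
    · refine ⟨{i, k}, ?_, ⟨i, by simp⟩, ?_⟩
      · intro x hx
        simp only [Finset.mem_insert, Finset.mem_singleton] at hx ⊢
        tauto
      · rw [mem_range, Finset.sum_pair hik]
        omega
  · refine ⟨{i, j}, ?_, ⟨i, by simp⟩, ?_⟩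
    · intro x hx
      simp only [Finset.mem_insert, Finset.mem_singleton] at hx ⊢
      tauto
    · rw [mem_range, Finset.sum_pair hij]
      omega

/-- **The case `n = 2` of Q1**: the positive integers congruent to `1`, `2` or `4` modulo `7` form
a `3`-subsum-free and `(2,2)`-Ramsey sequence. -/
theorem result :
    ∃ x : ℕ → ℤ, StrictMono x ∧
      Set.range x = {m : ℤ | 0 < m ∧ (m % 7 = 1 ∨ m % 7 = 2 ∨ m % 7 = 4)} ∧
      (∀ s : Finset ℕ, s.card = 3 →
        ∃ t ⊆ s, t.Nonempty ∧ (∑ i ∈ t, x i) ∉ Set.range x) ∧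
      (∀ c : ℤ → Fin 2, ∃ u : ℕ → ℕ, StrictMono u ∧ ∃ k : Fin 2,
        ∀ t : Finset ℕ, t.Nonempty → t.card ≤ 2 →
          (∑ l ∈ t, x (u l)) ∈ Set.range x ∧ c (∑ l ∈ t, x (u l)) = k) := by
  classical
  refine ⟨X, X_mono, X_range, X_subsum, ?_⟩
  intro c
  obtain ⟨s, hs, α, w, hw1, hw2⟩ := main (fun m => decide (InS m ∧ c m = 1)) (by
    intro m hm
    simp [hm])
  have hwX : ∀ i, w i ∈ Set.range X := by
    intro i
    rw [mem_range]
    have := hw1 i
    omega
  choose u hu using hwX
  have hcol : ∀ m : ℤ, InS m → decide (InS m ∧ c m = 1) = α → c m = (if α then 1 else 0) := by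
    intro m hm h
    cases α
    · have h1 : c m ≠ 1 := by simpa [hm] using h
      have h2 : c m = 0 := by
        have := (c m).isLt
        ext
        have h3 : (c m : ℕ) ≠ 1 := fun h4 => h1 (Fin.ext h4)
        show (c m : ℕ) = 0
        omega
      simpa using h2
    · have h1 : c m = 1 := by simpa [hm] using h
      simpa using h1
  refine ⟨u, ?_, if α then 1 else 0, ?_⟩
  · intro i j hij
    rw [← X_mono.lt_iff_lt, hu, hu]
    exact (hw2 i j hij).1
  · have hpair : ∀ i j, i < j → w i + w j ∈ Set.range X ∧ c (w i + w j) = (if α then 1 else 0) := by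
      intro i j hij
      have hi := hw1 i
      have hj := hw1 j
      have hS : InS (w i + w j) := by
        unfold InS
        omega
      exact ⟨mem_range.2 ⟨by omega, hS⟩, hcol _ hS (hw2 i j hij).2⟩
    intro t ht ht2
    have h12 : t.card = 1 ∨ t.card = 2 := by
      have := ht.card_pos
      omega
    rcases h12 with h | h
    · obtain ⟨i, rfl⟩ := Finset.card_eq_one.1 h
      rw [Finset.sum_singleton, hu]
      have hi := hw1 i
      have hS : InS (w i) := by
        unfold InS
        omega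
      exact ⟨mem_range.2 ⟨by omega, hS⟩, hcol _ hS hi.2.2⟩
    · obtain ⟨i, j, hij, rfl⟩ := Finset.card_eq_two.1 h
      rw [Finset.sum_pair hij, hu, hu]
      rcases lt_or_gt_of_ne hij with h | h
      · exact hpair i j h
      · rw [add_comm]
        exact hpair j i h

end Pool.Agent.Results.MP_abb0cc_co.PairsModSeven
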